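import Mathlib

set_option autoImplicit false

namespace Pool.Agent.Results.MP_46a474_nt.Char3Deg9

open Polynomial

theorem core {L : Type} [Field L] [CharP L 3] (t : L →+ L) (W : AddSubmonoid L)
    (hW : (W : Set L).ncard ≤ 9) (hfin : (W : Set L).Finite) (ht : ∀ w ∈ W, t w ∈ W)
    (u : L) (hu : u ∈ W) (h3 : t (t (t u)) = 0) : t (t u) = 0 := by
  by_contra h2
  have inj : ∀ i j : Fin 3, i.val • t (t u) = j.val • t (t u) → i = j := by
    intro i j h
    rw [nsmul_eq_mul, nsmul_eq_mul] at h
    have h' := mul_right_cancel₀ h2 h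
    exact Fin.ext (CharP.natCast_injOn_Iio L 3 i.2 j.2 h')
  let f : Fin 3 × Fin 3 × Fin 3 → L := fun c =>
    c.1.val • u + c.2.1.val • t u + c.2.2.val • t (t u)
  have hf : Function.Injective f := by
    rintro ⟨i, j, k⟩ ⟨i', j', k'⟩ h
    simp only [f] at h
    have h1 := congrArg t h
    simp only [map_add, map_nsmul, h3, smul_zero, add_zero] at h1
    have h4 := congrArg t h1
    simp only [map_add, map_nsmul, h3, smul_zero, add_zero] at h4
    obtain rfl := inj i i' h4
    obtain rfl := inj j j' (add_left_cancel h1)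
    obtain rfl := inj k k' (add_left_cancel h)
    rfl
  have h6 : Set.range f ⊆ (W : Set L) := by
    rintro _ ⟨c, rfl⟩
    exact W.add_mem (W.add_mem (W.nsmul_mem hu _) (W.nsmul_mem (ht _ hu) _))
      (W.nsmul_mem (ht _ (ht _ hu)) _)
  have h7 := Set.ncard_le_ncard h6 hfin
  rw [← Set.image_univ, Set.ncard_image_of_injective _ hf, Set.ncard_univ] at h7
  simp at h7
  omega

theorem not_irr (K : Type) [Field K] [Fintype K] [CharP K 3] (a b : K) :
    ¬ Irreducible (C a * X + C b + X ^ 9 : K[X]) := by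
  intro hirr
  set g : K[X] := C a * X + C b + X ^ 9 with hg
  have : Fact (Irreducible g) := ⟨hirr⟩
  let L := AdjoinRoot g
  have hdeg : g.natDegree = 9 := by rw [hg]; compute_degree!
  let pb := AdjoinRoot.powerBasis hirr.ne_zero
  have : Module.Finite K L := pb.finite
  have : Finite L := Module.finite_of_finite K
  have hrank : Module.finrank K L = 9 := by
    rw [pb.finrank, AdjoinRoot.powerBasis_dim, hdeg]
  have : CharP L 3 := charP_of_injective_algebraMap' K 3
  have : Fact (Nat.Prime 3) := ⟨by norm_num⟩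
  have h3 : (3 : L) = 0 := by exact_mod_cast CharP.cast_eq_zero L 3
  let φ := FiniteField.frobeniusAlgHom K L
  have hord : orderOf φ = 9 := by rw [FiniteField.orderOf_frobeniusAlgHom, hrank]
  let α : L := AdjoinRoot.root g
  let a' : L := algebraMap K L a
  let b' : L := algebraMap K L b
  have hα : a' * α + b' + α ^ 9 = 0 := by
    have h0 : aeval α (C a * X + C b + X ^ 9 : K[X]) = 0 := by
      rw [← hg, AdjoinRoot.aeval_eq, AdjoinRoot.mk_self]
    simpa only [map_add, map_mul, map_pow, aeval_C, aeval_X] using h0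
  let t : L →+ L := φ.toRingHom.toAddMonoidHom - AddMonoidHom.id L
  have ht : ∀ x, t x = φ x - x := fun x => rfl
  have cube : ∀ (ψ : L →ₐ[K] L) (s : L → L), (∀ x, s x = ψ x - x) →
      ∀ x, s (s (s x)) = (ψ ^ 3) x - x := by
    intro ψ s hs x
    have : (ψ ^ 3) x = ψ (ψ (ψ x)) := rfl
    rw [this]
    simp only [hs, map_sub]
    linear_combination (ψ x - ψ (ψ x)) * h3
  have h9 : ∀ x y : L, (x + y) ^ 9 = x ^ 9 + y ^ 9 := fun x y => add_pow_char_pow x y 3 2
  have h9' : ∀ x y : L, (x - y) ^ 9 = x ^ 9 - y ^ 9 := fun x y => sub_pow_char_pow x y 2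
  let W : AddSubmonoid L :=
    { carrier := {w | a' * w + w ^ 9 = 0}
      add_mem' := fun {x y} hx hy => by
        simp only [Set.mem_ofPred_eq] at hx hy ⊢
        rw [h9]; linear_combination hx + hy
      zero_mem' := by simp }
  have hφa : φ a' = a' := φ.commutes a
  have hφb : φ b' = b' := φ.commutes b
  have hsub : (W : Set L) ⊆ (C a' * X + X ^ 9 : L[X]).rootSet L := by
    intro w hw
    rw [mem_rootSet]
    refine ⟨fun h => ?_, ?_⟩
    · have : (C a' * X + X ^ 9 : L[X]).natDegree = 9 := by compute_degree!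
      rw [h] at this
      simp at this
    · have : a' * w + w ^ 9 = 0 := hw
      simpa using this
  have hW : (W : Set L).ncard ≤ 9 := by
    refine (Set.ncard_le_ncard hsub (Set.toFinite _)).trans ((ncard_rootSet_le _ L).trans ?_)
    compute_degree
  have htW : ∀ w ∈ W, t w ∈ W := by
    intro w hw
    have h1 : a' * w + w ^ 9 = 0 := hw
    have h2 := congrArg φ h1
    rw [map_add, map_mul, map_pow, hφa, map_zero] at h2
    change a' * (φ w - w) + (φ w - w) ^ 9 = 0
    rw [h9']; linear_combination h2 - h1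
  have htα : t α ∈ W := by
    have h2 := congrArg φ hα
    rw [map_add, map_add, map_mul, map_pow, hφa, hφb, map_zero] at h2
    change a' * (φ α - α) + (φ α - α) ^ 9 = 0
    rw [h9']; linear_combination h2 - hα
  have desc : ∀ (m : ℕ) (w : L), w ∈ W → t^[m + 2] w = 0 → t (t w) = 0 := by
    intro m
    induction m with
    | zero => intro w _ h; exact h
    | succ m ih =>
      intro w hw h
      exact core t W hW (Set.toFinite _) htW w hw (ih (t w) (htW w hw) h)
  have c1 := cube φ t ht
  have c2 := cube (φ ^ 3) (fun x => t (t (t x))) c1 α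
  have hφ9 : (φ ^ 3) ^ 3 = 1 := by
    rw [← pow_mul, show 3 * 3 = orderOf φ from hord.symm]; exact pow_orderOf_eq_one φ
  rw [hφ9, AlgHom.one_apply, sub_self] at c2
  have c3 := desc 6 (t α) htα c2
  rw [c1, sub_eq_zero] at c3
  have c4 : φ ^ 3 = 1 := AdjoinRoot.algHom_ext c3
  have := orderOf_dvd_of_pow_eq_one c4
  rw [hord] at this
  omega

/-- For arbitrarily large q there is an irreducible f in F_q[X,Y] of total degree 9 none of whose
substitutions X = aY + b is irreducible. -/
theorem result (N : ℕ) : ∃ (K : Type) (_ : Field K) (_ : Fintype K)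
    (f : MvPolynomial (Fin 2) K), N < Fintype.card K ∧ Irreducible f ∧ f.totalDegree = 9 ∧
    ∀ a b : K, ¬ Irreducible
      (MvPolynomial.aeval ![C a * X + C b, X] f : K[X]) := by
  have : Fact (Nat.Prime 3) := ⟨by norm_num⟩
  let K := GaloisField 3 (N + 1)
  have : Fintype K := Fintype.ofFinite K
  refine ⟨K, inferInstance, this, MvPolynomial.X 0 + MvPolynomial.X 1 ^ 9, ?_, ?_, ?_, ?_⟩
  · rw [Fintype.card_eq_nat_card, GaloisField.card 3 (N + 1) (by omega)]
    exact lt_trans (Nat.lt_succ_self N) (Nat.lt_pow_self (by norm_num))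
  · rw [← MulEquiv.irreducible_iff (MvPolynomial.finSuccEquiv K 1)]
    have h1 : MvPolynomial.finSuccEquiv K 1 (MvPolynomial.X 1) = C (MvPolynomial.X 0) :=
      MvPolynomial.finSuccEquiv_X_succ (j := 0)
    rw [map_add, map_pow, MvPolynomial.finSuccEquiv_X_zero, h1, ← C_pow, ← sub_neg_eq_add,
      ← C_neg]
    exact irreducible_X_sub_C _
  · rw [MvPolynomial.totalDegree_add_eq_right_of_totalDegree_lt] <;>
      simp [MvPolynomial.totalDegree_X_pow]
  · intro a b
    simpa using not_irr K a b

end Pool.Agent.Results.MP_46a474_nt.Char3Deg9
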